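import Pool.Agent.Q264.GM.Stm

/-!
# Project GM (helper264): CORE, the inequality in coordinates
-/

set_option autoImplicit false

open MeasureTheory ProbabilityTheory Set Filter Topology
open scoped InnerProductSpace ENNReal
open Pool.Agent.Q264.GM

namespace Pool.Agent.Q153.GM

variable {m : ℕ} {C : Set ((Fin m → ℝ) × ℝ)}

theorem ph_pos (x : ℝ) : 0 < ph x := by
  unfold ph
  positivity

theorem ph_le (x : ℝ) : ph x ≤ 1 / 2 := by
  unfold ph
  have h1 : Real.exp (-x ^ 2 / 2) ≤ 1 := by
    rw [Real.exp_le_one_iff]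
    nlinarith [sq_nonneg x]
  have h2 : (2 : ℝ) ≤ √(2 * Real.pi) := by
    rw [Real.le_sqrt (by norm_num) (by positivity)]
    nlinarith [Real.pi_gt_three]
  have h3 : (√(2 * Real.pi))⁻¹ ≤ 1 / 2 := by
    rw [inv_eq_one_div]
    exact one_div_le_one_div_of_le (by norm_num) h2
  calc (√(2 * Real.pi))⁻¹ * Real.exp (-x ^ 2 / 2) ≤ 1 / 2 * 1 :=
        mul_le_mul h3 h1 (Real.exp_pos _).le (by norm_num)
    _ = 1 / 2 := mul_one _

/-- a short interval -/
theorem Icc_le (hPHI : S_PHI) {r : ℝ} (hr : 0 < r) : g1.real (Icc (-r) r) ≤ r := by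
  obtain ⟨hd, -, -, -, -, -, -, hI, -⟩ := hPHI
  have hlt : -r < r := by linarith
  rw [hI (-r) r hlt.le]
  obtain ⟨x, -, hx⟩ := exists_hasDerivAt_eq_slope P ph hlt
    (fun x _ => (hd x).continuousAt.continuousWithinAt) (fun x _ => hd x)
  have h1 := ph_le x
  rw [hx, div_le_iff₀ (by linarith)] at h1
  linarith

/-- the measure of the section -/
noncomputable def gs (C : Set ((Fin m → ℝ) × ℝ)) (y : Fin m → ℝ) : ℝ := g1.real (sec C y)

/-- the measure of the neighbourhood of the section -/
noncomputable def gn (C : Set ((Fin m → ℝ) × ℝ)) (r : ℝ) (y : Fin m → ℝ) : ℝ := g1.real (nb r (sec C y))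

/-- the neighbourhood of `C` in the direction of the last axis -/
def Cn (C : Set ((Fin m → ℝ) × ℝ)) (r : ℝ) : Set ((Fin m → ℝ) × ℝ) := {z | z.2 ∈ nb r (sec C z.1)}

open Pointwise in
theorem Cn_eq (r : ℝ) : Cn C r = C + ({(0 : Fin m → ℝ)} : Set _) ×ˢ Icc (-r) r := by
  ext z
  rw [Set.mem_add]
  constructor
  · rintro ⟨τ, hτ, h⟩
    refine ⟨(z.1, z.2 - τ), h, (0, τ), ⟨rfl, hτ⟩, ?_⟩
    ext <;> simp
  · rintro ⟨x, hx, ⟨y, τ⟩, ⟨hy, hτ⟩, rfl⟩
    refine ⟨τ, hτ, ?_⟩
    show ((x + (y, τ)).1, (x + (y, τ)).2 - τ) ∈ C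
    have hy' : y = 0 := hy
    rw [hy']
    simpa using hx

theorem closed_Cn (hC : IsClosed C) (r : ℝ) : IsClosed (Cn C r) := by
  rw [Cn_eq]
  exact hC.add_right_of_isCompact (isCompact_singleton.prod isCompact_Icc)

theorem meas_real {S : Set ((Fin m → ℝ) × ℝ)} (hS : MeasurableSet S) :
    Measurable fun y => g1.real (Prod.mk y ⁻¹' S) :=
  (measurable_measure_prodMk_left hS).ennreal_toReal

theorem meas_gs (hC : IsClosed C) : Measurable (gs C) := meas_real hC.measurableSet

theorem meas_gn (hC : IsClosed C) (r : ℝ) : Measurable (gn C r) := meas_real (closed_Cn hC r).measurableSet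

theorem prod_real {S : Set ((Fin m → ℝ) × ℝ)} (hS : MeasurableSet S) :
    ((gm m).prod g1).real S = ∫ y, g1.real (Prod.mk y ⁻¹' S) ∂(gm m) := by
  unfold Measure.real
  rw [integral_toReal (measurable_measure_prodMk_left hS).aemeasurable
    (Eventually.of_forall fun y => measure_lt_top _ _), Measure.prod_apply hS]

theorem gs_nonneg (y : Fin m → ℝ) : 0 ≤ gs C y := measureReal_nonneg

theorem gs_le (y : Fin m → ℝ) : gs C y ≤ 1 := measureReal_le_one

theorem int_of {f : (Fin m → ℝ) → ℝ} (hf : Measurable f) (h0 : ∀ y, 0 ≤ f y) (h1 : ∀ y, f y ≤ 1) :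
    Integrable f (gm m) := by
  have : IsProbabilityMeasure (gm m) := by unfold gm Pool.Agent.H902R3.ZA.gm; infer_instance
  refine Integrable.of_bound hf.aestronglyMeasurable 1 (Eventually.of_forall fun y => ?_)
  rw [Real.norm_of_nonneg (h0 y)]
  exact h1 y

theorem gs_le_gn {r : ℝ} (hr : 0 < r) (y : Fin m → ℝ) : gs C y ≤ gn C r y := by
  refine measureReal_mono ?_ (measure_ne_top _ _)
  intro s hs
  refine ⟨0, ⟨by linarith, hr.le⟩, ?_⟩
  rwa [sub_zero]

theorem t_CORE (hPHI : S_PHI) (hLC : S_LC) (hGAIN : S_GAIN) (hLOSS : S_LOSS) (hDIFF : S_DIFF) : S_CORE := by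
  intro m C p κ t r hconv hC hp hpC hκ hPκ hκt ht hr hr1 hPt
  have : IsProbabilityMeasure (gm m) := by unfold gm Pool.Agent.H902R3.ZA.gm; infer_instance
  have hP0 := hPHI.2.2.1
  have hP1 := hPHI.2.2.2.1
  have hmono := hPHI.2.1.monotone
  have ht0 : 0 < t := by linarith
  have hmg := meas_gs hC
  have hmn := meas_gn hC r
  have hig : Integrable (gs C) (gm m) := int_of hmg gs_nonneg gs_le
  have hin : Integrable (gn C r) (gm m) := int_of hmn (fun _ => measureReal_nonneg) fun _ => measureReal_le_one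
  have e1 : ((gm m).prod g1).real C = ∫ y, gs C y ∂(gm m) := prod_real hC.measurableSet
  -- the set of the sections which are kept
  set A : Set (Fin m → ℝ) := {y | P (-t) ≤ gs C y} with hA
  have hAm : MeasurableSet A := measurableSet_le measurable_const hmg
  have hAiff : ∀ y, y ∈ A ↔ g1 (Icc (-r) r) ≤ g1 (sec C y) := by
    intro y
    rw [hA, mem_ofPred_eq, hPt]
    exact ENNReal.toReal_le_toReal (measure_ne_top _ _) (measure_ne_top _ _)
  have hcirc : circc C r = (Prod.fst ⁻¹' A) ∩ Cn C r := by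
    ext z
    rw [mem_inter_iff, mem_preimage, hAiff]
    exact Iff.rfl
  have hcm : MeasurableSet (circc C r) := by
    rw [hcirc]
    exact (measurable_fst hAm).inter (closed_Cn hC r).measurableSet
  have e2 : ((gm m).prod g1).real (circc C r) = ∫ y in A, gn C r y ∂(gm m) := by
    rw [prod_real hcm, ← integral_indicator hAm]
    refine integral_congr_ae (Eventually.of_forall fun y => ?_)
    show g1.real (Prod.mk y ⁻¹' circc C r) = A.indicator (gn C r) y
    by_cases hy : y ∈ A
    · rw [indicator_of_mem hy]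
      have e : Prod.mk y ⁻¹' circc C r = nb r (sec C y) := by
        ext s
        rw [hcirc]
        exact ⟨fun h => h.2, fun h => ⟨hy, h⟩⟩
      rw [e]
      rfl
    · rw [indicator_of_notMem hy]
      have e : Prod.mk y ⁻¹' circc C r = ∅ := by
        ext s
        rw [hcirc]
        exact ⟨fun h => hy h.1, fun h => h.elim⟩
      rw [e, measureReal_empty]
  -- the function `G`
  set G : ℝ → ℝ := GG C with hG
  have hGdef : ∀ s, G s = (gm m).real {y | P s ≤ gs C y} := fun s => rfl
  have hG0 : ∀ s, 0 ≤ G s := fun s => measureReal_nonneg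
  have hG1 : ∀ s, G s ≤ 1 := fun s => measureReal_le_one
  have hGanti : Antitone G := by
    intro s s' hss
    rw [hGdef, hGdef]
    refine measureReal_mono ?_ (measure_ne_top _ _)
    intro y hy
    exact le_trans (hmono hss) hy
  have hGsub : ∀ s s', s ≤ s' → (gm m).real {y | P s ≤ gs C y ∧ gs C y < P s'} = G s - G s' := by
    intro s s' hss
    rw [hGdef, hGdef, ← measureReal_sdiff _ (measurableSet_le measurable_const hmg)]
    · congr 1
      ext y
      simp only [mem_ofPred_eq, Set.mem_sdiff, not_le]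
    · intro y hy
      exact le_trans (hmono hss) hy
  set c : ℝ := 3 * p / 4 with hc
  have hc0 : 0 < c := by positivity
  have hκm : MeasurableSet {y | P (-κ) ≤ gs C y} := measurableSet_le measurable_const hmg
  have hcG : c ≤ G (-κ) := by
    have h1 : ∫ y, gs C y ∂(gm m) ≤ ∫ y, ({y | P (-κ) ≤ gs C y}.indicator (fun _ => (1 : ℝ)) y + P (-κ)) ∂(gm m) := by
      refine integral_mono hig ?_ fun y => ?_
      · exact ((integrable_const (1 : ℝ)).indicator hκm).add (integrable_const _)
      · show gs C y ≤ _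
        by_cases hy : P (-κ) ≤ gs C y
        · rw [indicator_of_mem (show y ∈ {y | P (-κ) ≤ gs C y} from hy)]
          have := gs_le (C := C) y
          have := hP0 (-κ)
          linarith
        · rw [indicator_of_notMem (show y ∉ {y | P (-κ) ≤ gs C y} from hy), zero_add]
          exact (not_le.1 hy).le
    rw [integral_add ((integrable_const (1 : ℝ)).indicator hκm) (integrable_const _), integral_indicator hκm,
      setIntegral_const, integral_const, smul_eq_mul, smul_eq_mul, mul_one, ← hGdef] at h1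
    simp only [probReal_univ, one_mul] at h1
    rw [e1] at hpC
    rw [hPκ] at h1
    rw [hc]
    linarith
  set Δ : ℝ := G (-(κ + 1)) - G (-κ) with hΔ
  have hΔ0 : 0 ≤ Δ := by
    rw [hΔ, sub_nonneg]
    exact hGanti (by linarith)
  have hdiff := hDIFF G κ t c hGanti hG0 hG1 (hLC m C hconv hC) hc0 hcG hκt
  have hσ0 : 0 ≤ Δ / c := div_nonneg hΔ0 hc0.le
  have hloss := hLOSS (Fin m → ℝ) (gm m) (gs C) t (Δ / c) hmg gs_nonneg gs_le ht0 hσ0 (by
    intro s hs
    rw [hGsub s (-t) hs.le]
    exact hdiff s hs)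
  -- the gain
  set B : Set (Fin m → ℝ) := {y | P (-(κ + 1)) ≤ gs C y ∧ gs C y < P (-κ)} with hB
  have hBm : MeasurableSet B := (measurableSet_le measurable_const hmg).inter
    (measurableSet_lt hmg measurable_const)
  have hBA : B ⊆ A := by
    intro y hy
    exact le_trans (hmono (by linarith)) hy.1
  have hp1 : p ≤ 1 := hpC.trans measureReal_le_one
  have hsec_conv : ∀ y, Convex ℝ (sec C y) := by
    intro y s hs s' hs' a b ha hb hab
    have := hconv hs hs' ha hb hab
    have e : a • (y, s) + b • (y, s') = (y, a • s + b • s') := by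
      ext i
      · simp only [Prod.fst_add, Prod.smul_fst, Pi.add_apply, Pi.smul_apply, smul_eq_mul]
        rw [← add_mul, hab, one_mul]
      · simp
    rwa [e] at this
  have hsec_closed : ∀ y, IsClosed (sec C y) := fun y => hC.preimage (Continuous.prodMk_right y)
  have hgain : ∀ y ∈ B, gs C y + r * ph (κ + 2) ≤ gn C r y := by
    intro y hy
    exact hGAIN (sec C y) κ r (hsec_conv y) (hsec_closed y) hκ (by rw [hPκ]; linarith) hy.1 hy.2 hr hr1
  have hAint : ∫ y in A, gs C y ∂(gm m) + r * ph (κ + 2) * Δ ≤ ∫ y in A, gn C r y ∂(gm m) := by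
    have h1 : ∫ y in A, (gs C y + B.indicator (fun _ => r * ph (κ + 2)) y) ∂(gm m) ≤
        ∫ y in A, gn C r y ∂(gm m) := by
      refine setIntegral_mono_on ?_ hin.integrableOn hAm fun y _ => ?_
      · exact (hig.add ((integrable_const _).indicator hBm)).integrableOn
      · by_cases hy : y ∈ B
        · rw [indicator_of_mem hy]
          exact hgain y hy
        · rw [indicator_of_notMem hy, add_zero]
          exact gs_le_gn hr y
    rw [integral_add hig.integrableOn ((integrable_const _).indicator hBm).integrableOn,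
      setIntegral_indicator hBm, inter_eq_self_of_subset_right hBA, setIntegral_const, smul_eq_mul,
      hB, hGsub (-(κ + 1)) (-κ) (by linarith), ← hΔ] at h1
    linarith
  have hsplit : ∫ y in A, gs C y ∂(gm m) + ∫ y in Aᶜ, gs C y ∂(gm m) = ∫ y, gs C y ∂(gm m) :=
    integral_add_compl hAm hig
  have hAc : Aᶜ = {y | gs C y < P (-t)} := by
    ext y
    simp only [hA, mem_compl_iff, mem_ofPred_eq, not_le]
  rw [hAc] at hsplit
  have hPr : P (-t) ≤ r := by
    rw [hPt]
    exact Icc_le hPHI hr
  have hphp := ph_pos (κ + 2)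
  have hlast : Δ / c * (P (-t) / t) ≤ r * ph (κ + 2) * Δ := by
    have h1 : P (-t) / t ≤ r / t := div_le_div_of_nonneg_right hPr ht0.le
    have h2 : 1 ≤ c * (t * ph (κ + 2)) := by
      rw [div_le_iff₀ (by positivity)] at ht
      rw [hc]
      nlinarith
    calc Δ / c * (P (-t) / t) ≤ Δ / c * (r / t) := mul_le_mul_of_nonneg_left h1 hσ0
      _ = (Δ * r) * (1 / (c * t)) := by
        field_simp
      _ ≤ (Δ * r) * ph (κ + 2) := by
        refine mul_le_mul_of_nonneg_left ?_ (mul_nonneg hΔ0 hr.le)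
        rw [div_le_iff₀ (by positivity)]
        linarith
      _ = r * ph (κ + 2) * Δ := by ring
  rw [e1, e2]
  linarith

end Pool.Agent.Q153.GM
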