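import Pool.Agent.Q264.GM.Stm

/-!
# Project GM (helper264): LOSS, layer cake with respect to the Gaussian distribution function
-/

set_option autoImplicit false

open MeasureTheory ProbabilityTheory Set Filter Topology
open scoped InnerProductSpace ENNReal
open Pool.Agent.Q264.GM

namespace Pool.Agent.Q153.GM

/-- `P` takes all values between `0` and `1` -/
theorem P_surj (hPHI : S_PHI) {c : ℝ} (h0 : 0 < c) (h1 : c < 1) : ∃ x, P x = c := by
  obtain ⟨hd, hm, hp0, hp1, hs, hb, ht, -, -⟩ := hPHI
  have hc : Continuous P := continuous_iff_continuousAt.2 fun x => (hd x).continuousAt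
  obtain ⟨a, ha⟩ := (hb.eventually_lt_const h0).exists
  obtain ⟨b, hb'⟩ := (ht.eventually_const_lt h1).exists
  have hab : a ≤ b := by
    by_contra h
    have := hm (not_le.1 h)
    linarith
  obtain ⟨x, -, hx⟩ := intermediate_value_Icc hab hc.continuousOn ⟨ha.le, hb'.le⟩
  exact ⟨x, hx⟩

theorem g1_le (hPHI : S_PHI) {c : ℝ} (h0 : 0 ≤ c) (h1 : c < 1) : g1 {s | P s ≤ c} = ENNReal.ofReal c := by
  rcases h0.eq_or_lt with h | h
  · have e : {s : ℝ | P s ≤ c} = ∅ := by
      ext s
      simp only [mem_ofPred_eq, mem_empty_iff_false, iff_false, not_le]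
      rw [← h]
      exact hPHI.2.2.1 s
    rw [e, measure_empty, ← h, ENNReal.ofReal_zero]
  · obtain ⟨x, hx⟩ := P_surj hPHI h h1
    have e : {s : ℝ | P s ≤ c} = Iic x := by
      ext s
      simp only [mem_ofPred_eq, mem_Iic]
      rw [← hx]
      exact hPHI.2.1.le_iff_le
    rw [e, ← hx]
    unfold P
    rw [ofReal_measureReal]

theorem t_LOSS (hPHI : S_PHI) (hTAIL : S_TAIL) : S_LOSS := by
  intro Y _ μ _ g t σ hg h0 h1 ht hσ h
  have hc : Continuous P := continuous_iff_continuousAt.2 fun x => (hPHI.1 x).continuousAt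
  set c := P (-t) with hcdef
  have hc0 : 0 < c := hPHI.2.2.1 _
  have hc1 : c < 1 := hPHI.2.2.2.1 _
  have hA : MeasurableSet {y | g y < c} := measurableSet_lt hg measurable_const
  set S : Set (Y × ℝ) := {z | P z.2 ≤ g z.1 ∧ g z.1 < c} with hS
  have hSm : MeasurableSet S :=
    (measurableSet_le (hc.measurable.comp measurable_snd) (hg.comp measurable_fst)).inter
      (measurableSet_lt (hg.comp measurable_fst) measurable_const)
  have e1 : ∫⁻ y in {y | g y < c}, ENNReal.ofReal (g y) ∂μ = (μ.prod g1) S := by
    rw [Measure.prod_apply hSm, ← lintegral_indicator hA]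
    refine lintegral_congr fun y => ?_
    by_cases hy : g y < c
    · rw [indicator_of_mem (show y ∈ {y | g y < c} from hy), ← g1_le hPHI (h0 y) (hy.trans hc1)]
      congr 1
      ext s
      simp [hS, hy]
    · rw [indicator_of_notMem (show y ∉ {y | g y < c} from hy)]
      have e : Prod.mk y ⁻¹' S = ∅ := by
        ext s
        simp only [hS, mem_preimage, mem_ofPred_eq, mem_empty_iff_false, iff_false, not_and]
        exact fun _ => hy
      rw [e, measure_empty]
  have e2 : (μ.prod g1) S ≤ ENNReal.ofReal (σ * (c / t)) := by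
    rw [Measure.prod_apply_symm hSm]
    have e3 : ∀ s : ℝ, μ ((fun x => (x, s)) ⁻¹' S) ≤
        (Iio (-t)).indicator (fun s => ENNReal.ofReal σ * ENNReal.ofReal (-t - s)) s := by
      intro s
      by_cases hs : s < -t
      · rw [indicator_of_mem (show s ∈ Iio (-t) from hs), ← ENNReal.ofReal_mul hσ]
        have e4 : (fun x => (x, s)) ⁻¹' S = {y | P s ≤ g y ∧ g y < c} := by
          ext y
          simp [hS]
        rw [e4, ← ofReal_measureReal (μ := μ)]
        exact ENNReal.ofReal_le_ofReal (h s hs)
      · rw [indicator_of_notMem (show s ∉ Iio (-t) from hs)]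
        have e : (fun x => (x, s)) ⁻¹' S = ∅ := by
          ext y
          simp only [hS, mem_preimage, mem_ofPred_eq, mem_empty_iff_false, iff_false, not_and, not_lt]
          intro h2
          refine le_trans ?_ h2
          exact hPHI.2.1.monotone (not_lt.1 hs)
        rw [e, measure_empty]
    refine (lintegral_mono e3).trans ?_
    rw [lintegral_indicator measurableSet_Iio, lintegral_const_mul _ (by fun_prop), ENNReal.ofReal_mul hσ]
    exact mul_le_mul_right (hTAIL t ht) _
  rw [integral_eq_lintegral_of_nonneg_ae (Eventually.of_forall h0) hg.aestronglyMeasurable, e1]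
  have hnn : 0 ≤ σ * (c / t) := mul_nonneg hσ (div_nonneg hc0.le ht.le)
  calc ((μ.prod g1) S).toReal ≤ (ENNReal.ofReal (σ * (c / t))).toReal :=
        ENNReal.toReal_mono ENNReal.ofReal_ne_top e2
    _ = σ * (c / t) := ENNReal.toReal_ofReal hnn

end Pool.Agent.Q153.GM
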