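import Pool.Agent.Q264.GM.Stm

/-!
# Project GM (helper264): TAIL, the first moment of the tail
-/

set_option autoImplicit false

open MeasureTheory ProbabilityTheory Set Filter Topology
open scoped InnerProductSpace ENNReal
open Pool.Agent.Q264.GM

namespace Pool.Agent.Q153.GM

theorem ph_pos' (x : ℝ) : 0 < ph x := by
  unfold ph
  positivity

theorem ph_deriv (x : ℝ) : HasDerivAt ph (-x * ph x) x := by
  have h1 : HasDerivAt (fun y : ℝ => -y ^ 2 / 2) (-x) x := by
    have h := ((hasDerivAt_pow 2 x).neg).div_const 2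
    have e : -(((2 : ℕ) : ℝ) * x ^ (2 - 1)) / 2 = -x := by
      rw [Nat.cast_ofNat, Nat.add_one_sub_one, pow_one]
      ring
    rw [e] at h
    exact h
  have h2 := (h1.exp).const_mul (√(2 * Real.pi))⁻¹
  have e : (√(2 * Real.pi))⁻¹ * (Real.exp (-x ^ 2 / 2) * -x) = -x * ph x := by
    unfold ph
    ring
  rw [e] at h2
  exact h2

theorem ph_eq (x : ℝ) : gaussianPDFReal 0 1 x = ph x := by
  unfold gaussianPDFReal ph
  simp

theorem ph_cont : Continuous ph := continuous_iff_continuousAt.2 fun x => (ph_deriv x).continuousAt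

theorem ph_int : Integrable ph := by
  have := integrable_gaussianPDFReal 0 1
  rwa [funext ph_eq] at this

theorem mul_ph_int : Integrable fun x => x * ph x := by
  have h := (integrable_mul_exp_neg_mul_sq (b := 1 / 2) (by norm_num)).const_mul (√(2 * Real.pi))⁻¹
  refine h.congr (Eventually.of_forall fun x => ?_)
  show (√(2 * Real.pi))⁻¹ * (x * Real.exp (-(1 / 2) * x ^ 2)) = x * ph x
  unfold ph
  have e : -(1 / 2) * x ^ 2 = -x ^ 2 / 2 := by ring
  rw [e]
  ring

theorem ph_neg (x : ℝ) : ph (-x) = ph x := by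
  unfold ph
  rw [neg_sq]

theorem ph_lim : Tendsto ph atBot (𝓝 0) := by
  have h1 : Tendsto (fun x : ℝ => -x ^ 2 / 2) atBot atBot := by
    have h2 : Tendsto (fun x : ℝ => x ^ 2) atBot atTop := by
      have := (tendsto_pow_atTop (α := ℝ) two_ne_zero).comp tendsto_neg_atBot_atTop
      refine this.congr fun x => ?_
      simp
    have h3 := (h2.atTop_div_const (r := 2) (by norm_num))
    have h4 := tendsto_neg_atTop_atBot.comp h3
    refine h4.congr fun x => ?_
    simp only [Function.comp]
    ring
  have h5 := (Real.tendsto_exp_atBot.comp h1).const_mul (√(2 * Real.pi))⁻¹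
  rw [mul_zero] at h5
  exact h5

theorem t_TAIL (hPHI : S_PHI) (hMILLS : S_MILLS) : S_TAIL := by
  intro t ht
  have hd := hPHI.1
  have hb := hPHI.2.2.2.2.2.1
  have hint : Integrable fun s => ph s * (-t - s) := by
    have := (ph_int.const_mul (-t)).sub mul_ph_int
    refine this.congr (Eventually.of_forall fun s => ?_)
    show -t * ph s - s * ph s = ph s * (-t - s)
    ring
  have h1 : ∫⁻ s in Iio (-t), ENNReal.ofReal (-t - s) ∂g1 =
      ∫⁻ s in Iio (-t), ENNReal.ofReal (ph s * (-t - s)) := by
    unfold g1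
    rw [gaussianReal_of_var_ne_zero 0 one_ne_zero,
      setLIntegral_withDensity_eq_setLIntegral_mul _ (measurable_gaussianPDF 0 1) (by fun_prop) measurableSet_Iio]
    refine lintegral_congr fun s => ?_
    rw [Pi.mul_apply, gaussianPDF, ph_eq, ← ENNReal.ofReal_mul (ph_pos' s).le]
  have h2 : ∫ s in Iic (-t), ph s * (-t - s) = (ph (-t) - t * P (-t)) - (0 - t * 0) := by
    refine integral_Iic_of_hasDerivAt_of_tendsto' (f := fun s => ph s - t * P s) (fun x _ => ?_)
      hint.integrableOn ?_
    · have := (ph_deriv x).sub ((hd x).const_mul t)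
      have e : -x * ph x - t * ph x = ph x * (-t - x) := by ring
      rwa [e] at this
    · exact ph_lim.sub (hb.const_mul t)
  rw [h1, ← ofReal_integral_eq_lintegral_ofReal hint.integrableOn, ← integral_Iic_eq_integral_Iio, h2]
  · refine ENNReal.ofReal_le_ofReal ?_
    have h3 := hMILLS t ht
    rw [ph_neg, le_div_iff₀ ht]
    nlinarith
  · refine (ae_restrict_iff' measurableSet_Iio).2 (Eventually.of_forall fun s hs => ?_)
    have : s < -t := hs
    exact mul_nonneg (ph_pos' s).le (by linarith)

end Pool.Agent.Q153.GM
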